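import Pool.Agent.Helper57.BI.Defs

/-! Block BI-16 (by helper68), auxiliary part: the transference lemma from the finite key lemma,
a kernel and the averaging lemma (as hypotheses). -/

namespace Pool.Agent.Helper57.BI

open MeasureTheory Complex Filter Topology

/-- Reproducing property of a kernel whose symbol is one on the spectrum. -/
theorem BL_repro {r : ℝ} {a : ℤ → ℝ} (ha : Summable a)
    (hs : ∀ θ : ℝ, |θ| ≤ r → sym (fun l => (a l : ℂ)) θ = 1)
    {φ : ℤ → ℝ} (hφ : ∃ C, ∀ n, |φ n| ≤ C) (hBL : BL r (fun n => (φ n : ℂ))) (i : ℤ) :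
    ∑' l : ℤ, a l * φ (i + l) = φ i := by
  obtain ⟨B, hB⟩ := hφ
  have hac : Summable (fun l => (a l : ℂ)) := Complex.summable_ofReal.2 ha
  have hone (c : ℤ → ℂ) : HasSum (fun m : ℤ => (if m = i then (1 : ℂ) else 0) * c m) (c i) := by
    have := hasSum_single i (f := fun m => (if m = i then (1 : ℂ) else 0) * c m)
      (by intro m hm; simp [hm])
    simpa using this
  have hshift (c : ℤ → ℂ) (C : ℝ) (hc : ∀ m, ‖c m‖ ≤ C) :
      Summable (fun l : ℤ => (a l : ℂ) * c l) := by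
    refine Summable.of_norm_bounded (g := fun l => |a l| * C) ((ha.abs).mul_right C) fun l => ?_
    rw [norm_mul, Complex.norm_real, Real.norm_eq_abs]
    exact mul_le_mul_of_nonneg_left (hc l) (abs_nonneg _)
  have hre (c : ℤ → ℂ) (C : ℝ) (hc : ∀ m, ‖c m‖ ≤ C) :
      HasSum (fun m : ℤ => (a (m - i) : ℂ) * c m) (∑' l : ℤ, (a l : ℂ) * c (i + l)) := by
    have h1 : HasSum (fun l : ℤ => (a l : ℂ) * c (i + l)) (∑' l : ℤ, (a l : ℂ) * c (i + l)) :=
      (hshift (fun l => c (i + l)) C fun m => hc _).hasSum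
    have h2 := (Equiv.subRight i).hasSum_iff.2 h1
    refine h2.congr_fun ?_ |> fun h => h
    intro m
    simp [Equiv.subRight]
  set b : ℤ → ℂ := fun m => (a (m - i) : ℂ) - (if m = i then 1 else 0) with hb
  have hsub : HasSum (fun m : ℤ => (a (m - i) : ℂ)) (∑' l : ℤ, (a l : ℂ)) := by
    have := hre (fun _ => 1) 1 (by simp)
    simpa using this
  have hbs : Summable b := by
    have h1 := hone (fun _ => 1)
    simp only [mul_one] at h1
    exact hsub.summable.sub h1.summable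
  have hbz : ∀ θ : ℝ, |θ| ≤ r → sym b θ = 0 := by
    intro θ hθ
    have h1 := hre (fun l => ee (l * θ)) 1 (fun m => (norm_ee _).le)
    have h2 : ∑' l : ℤ, (a l : ℂ) * ee (((i + l : ℤ) : ℝ) * θ) = ee (i * θ) := by
      have h3 : ∀ l : ℤ, (a l : ℂ) * ee (((i + l : ℤ) : ℝ) * θ) =
          ee (i * θ) * ((a l : ℂ) * ee (l * θ)) := by
        intro l
        rw [show (((i + l : ℤ) : ℝ) * θ) = i * θ + l * θ by push_cast; ring, ee_add]
        ring
      simp_rw [h3]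
      rw [tsum_mul_left]
      have h4 := hs θ hθ
      unfold sym at h4
      rw [h4, mul_one]
    rw [h2] at h1
    have h5 := h1.sub (hone (fun l => ee (l * θ)))
    rw [sub_self] at h5
    unfold sym
    rw [← h5.tsum_eq]
    refine tsum_congr fun l => ?_
    rw [hb]
    ring
  have h6 := hBL b hbs hbz
  have h7 := hre (fun n => (φ n : ℂ)) B (fun m => by rw [Complex.norm_real]; exact hB m)
  have h8 := h7.sub (hone (fun n => (φ n : ℂ)))
  have h9 : ∑' l : ℤ, b l * (φ l : ℂ) =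
      (∑' l : ℤ, (a l : ℂ) * (φ (i + l) : ℂ)) - (φ i : ℂ) := by
    rw [← h8.tsum_eq]
    refine tsum_congr fun l => ?_
    rw [hb]
    ring
  rw [h9] at h6
  have h10 : (∑' l : ℤ, (a l : ℂ) * (φ (i + l) : ℂ)) = ((∑' l : ℤ, a l * φ (i + l) : ℝ) : ℂ) := by
    rw [Complex.ofReal_tsum]
    refine tsum_congr fun l => ?_
    push_cast
    ring
  rw [h10] at h6
  have h11 := sub_eq_zero.1 h6
  exact_mod_cast h11

/-- Moving a window of length `H` by one changes the sum of a bounded function by at most `2M`. -/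
theorem window_one {F : ℤ → ℝ} {M : ℝ} (hF : ∀ i, |F i| ≤ M) (H : ℕ) :
    |∑ i ∈ Finset.range H, F ((i : ℤ) - 1) - ∑ i ∈ Finset.range H, F i| ≤ 2 * M := by
  have h : ∀ H : ℕ, ∑ i ∈ Finset.range H, F ((i : ℤ) - 1) - ∑ i ∈ Finset.range H, F i =
      F (-1) - F ((H : ℤ) - 1) := by
    intro H
    induction H with
    | zero => simp
    | succ n ih =>
      rw [Finset.sum_range_succ, Finset.sum_range_succ, add_sub_add_comm, ih]
      push_cast
      rw [show (n : ℤ) + 1 - 1 = n by ring]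
      ring
  rw [h]
  have h1 := abs_sub (F (-1)) (F ((H : ℤ) - 1))
  have h2 := hF (-1)
  have h3 := hF ((H : ℤ) - 1)
  linarith

theorem window_nat {F : ℤ → ℝ} {M : ℝ} (hF : ∀ i, |F i| ≤ M) (H n : ℕ) :
    |∑ i ∈ Finset.range H, F ((i : ℤ) - n) - ∑ i ∈ Finset.range H, F i| ≤ n * (2 * M) := by
  induction n with
  | zero => simp
  | succ n ih =>
    have h1 := window_one (F := fun i => F (i - n)) (fun i => hF _) H
    have h2 : ∑ i ∈ Finset.range H, F ((i : ℤ) - (n + 1 : ℕ)) =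
        ∑ i ∈ Finset.range H, F ((i : ℤ) - 1 - n) := by
      refine Finset.sum_congr rfl fun i _ => ?_
      congr 1
      push_cast
      ring
    rw [h2]
    have h3 := abs_sub_le (∑ i ∈ Finset.range H, F ((i : ℤ) - 1 - n))
      (∑ i ∈ Finset.range H, F ((i : ℤ) - n)) (∑ i ∈ Finset.range H, F i)
    push_cast
    linarith

theorem window {F : ℤ → ℝ} {M : ℝ} (hM : 0 ≤ M) (hF : ∀ i, |F i| ≤ M) (H : ℕ) (s : ℤ) :
    |∑ i ∈ Finset.range H, F ((i : ℤ) - s) - ∑ i ∈ Finset.range H, F i| ≤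
      M * min (2 * (H : ℝ)) (2 * |(s : ℝ)|) := by
  rw [mul_min_of_nonneg _ _ hM]
  refine le_min ?_ ?_
  · have h1 : |∑ i ∈ Finset.range H, F ((i : ℤ) - s)| ≤ H * M := by
      refine (Finset.abs_sum_le_sum_abs _ _).trans ?_
      refine (Finset.sum_le_sum fun i _ => hF _).trans_eq ?_
      simp
    have h2 : |∑ i ∈ Finset.range H, F (i : ℤ)| ≤ H * M := by
      refine (Finset.abs_sum_le_sum_abs _ _).trans ?_
      refine (Finset.sum_le_sum fun i _ => hF _).trans_eq ?_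
      simp
    have h3 := abs_sub (∑ i ∈ Finset.range H, F ((i : ℤ) - s)) (∑ i ∈ Finset.range H, F (i : ℤ))
    linarith
  · rcases le_total 0 s with h | h
    · obtain ⟨n, rfl⟩ := Int.eq_ofNat_of_zero_le h
      have := window_nat hF H n
      rw [show |((n : ℤ) : ℝ)| = n by simp]
      linarith
    · obtain ⟨n, hn⟩ := Int.eq_ofNat_of_zero_le (neg_nonneg.2 h)
      have hs : s = -(n : ℤ) := by omega
      subst hs
      have h1 := window_nat (F := fun i => F (i + n)) (fun i => hF _) H n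
      rw [abs_sub_comm] at h1
      have h2 : ∑ i ∈ Finset.range H, F ((i : ℤ) - -(n : ℤ)) =
          ∑ i ∈ Finset.range H, F ((i : ℤ) + n) := by
        refine Finset.sum_congr rfl fun i _ => ?_
        rw [sub_neg_eq_add]
      have h3 : ∑ i ∈ Finset.range H, F ((i : ℤ) - n + n) =
          ∑ i ∈ Finset.range H, F (i : ℤ) := by
        refine Finset.sum_congr rfl fun i _ => ?_
        rw [sub_add_cancel]
      rw [h2]
      simp only [h3] at h1
      rw [show |((-(n : ℤ) : ℤ) : ℝ)| = n by simp]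
      linarith

/-- The kernel sees the boundary of a long window only a little. -/
theorem kernel_tail {a : ℤ → ℝ} (ha : Summable a) :
    Tendsto (fun H : ℕ => ∑' l : ℤ, |a l| * (min (2 * (H : ℝ)) (2 * |(l : ℝ)|) / H)) atTop
      (𝓝 0) := by
  have h0 : (∑' l : ℤ, (0 : ℝ)) = 0 := tsum_zero
  rw [← h0]
  refine tendsto_tsum_of_dominated_convergence (bound := fun l => |a l| * 2)
    ((ha.abs).mul_right 2) ?_ ?_
  · intro l
    have h1 : Tendsto (fun H : ℕ => (2 * |(l : ℝ)|) / (H : ℝ)) atTop (𝓝 0) :=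
      tendsto_const_div_atTop_nhds_zero_nat _
    have h2 : Tendsto (fun H : ℕ => |a l| * ((2 * |(l : ℝ)|) / (H : ℝ))) atTop (𝓝 0) := by
      simpa using h1.const_mul |a l|
    refine squeeze_zero (fun H => ?_) (fun H => ?_) h2
    · positivity
    · refine mul_le_mul_of_nonneg_left ?_ (abs_nonneg _)
      exact div_le_div_of_nonneg_right (min_le_right _ _) (Nat.cast_nonneg _)
  · filter_upwards [eventually_gt_atTop 0] with H hH l
    have hH' : (0 : ℝ) < H := by exact_mod_cast hH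
    rw [Real.norm_eq_abs, abs_mul, abs_abs]
    refine mul_le_mul_of_nonneg_left ?_ (abs_nonneg _)
    rw [abs_of_nonneg (by positivity), div_le_iff₀ hH']
    exact min_le_left _ _

theorem zpow_measurable {X : Type} [MeasurableSpace X] {T : Equiv.Perm X} (hT : Measurable T)
    (hT' : Measurable T.symm) (n : ℤ) : Measurable (T ^ n : Equiv.Perm X) := by
  induction n with
  | zero => simpa using measurable_id
  | succ n ih =>
    have h : ((T ^ ((n : ℤ) + 1) : Equiv.Perm X) : X → X) = fun x => (T ^ (n : ℤ)) (T x) := by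
      funext x
      rw [zpow_add_one]
      rfl
    rw [h]
    exact ih.comp hT
  | pred n ih =>
    have h : ((T ^ (-(n : ℤ) - 1) : Equiv.Perm X) : X → X) =
        fun x => (T ^ (-(n : ℤ))) (T.symm x) := by
      funext x
      rw [zpow_sub_one]
      rfl
    rw [h]
    exact ih.comp hT'

theorem zpow_mp {X : Type} [MeasurableSpace X] {μ : Measure X} {T : Equiv.Perm X}
    (hT : MeasurePreserving T μ μ) (hT' : MeasurePreserving T.symm μ μ) (n : ℤ) :
    MeasurePreserving (T ^ n : Equiv.Perm X) μ μ := by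
  induction n with
  | zero => simpa using MeasurePreserving.id μ
  | succ n ih =>
    have h : ((T ^ ((n : ℤ) + 1) : Equiv.Perm X) : X → X) = (T ^ (n : ℤ) : Equiv.Perm X) ∘ T := by
      funext x
      rw [zpow_add_one]
      rfl
    rw [h]
    exact ih.comp hT
  | pred n ih =>
    have h : ((T ^ (-(n : ℤ) - 1) : Equiv.Perm X) : X → X) =
        (T ^ (-(n : ℤ)) : Equiv.Perm X) ∘ T.symm := by
      funext x
      rw [zpow_sub_one]
      rfl
    rw [h]
    exact ih.comp hT'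

/-- The average of the functions `g x` along the orbit. -/
noncomputable def avg0 {X : Type} (T : Equiv.Perm X) (H : ℕ) (g : X → ℤ → ℝ) (y : X) : ℝ :=
  (∑ i ∈ Finset.range H, g ((T ^ (-(i : ℤ))) y) i) / H

/-- Smoothing along the orbit. -/
noncomputable def avg1 {X : Type} (T : Equiv.Perm X) (a : ℤ → ℝ) (G0 : X → ℝ) (y : X) : ℝ :=
  ∑' l : ℤ, a l * G0 ((T ^ l) y)

theorem avg0_abs {X : Type} (T : Equiv.Perm X) {H : ℕ} (hH : 0 < H) {g : X → ℤ → ℝ} {M : ℝ}
    (hg : ∀ x i, |g x i| ≤ M) (y : X) : |avg0 T H g y| ≤ M := by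
  have hH' : (0 : ℝ) < H := by exact_mod_cast hH
  unfold avg0
  rw [abs_div, abs_of_pos hH', div_le_iff₀ hH']
  refine (Finset.abs_sum_le_sum_abs _ _).trans ?_
  refine (Finset.sum_le_sum fun i _ => hg _ _).trans_eq ?_
  simp [mul_comm]

theorem avg0_measurable {X : Type} [MeasurableSpace X] {T : Equiv.Perm X} (hT : Measurable T)
    (hT' : Measurable T.symm) (H : ℕ) {g : X → ℤ → ℝ} (hg : ∀ i, Measurable fun x => g x i) :
    Measurable (avg0 T H g) := by
  unfold avg0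
  refine Measurable.div_const ?_ _
  refine Finset.measurable_fun_sum _ fun i _ => ?_
  exact (hg i).comp (zpow_measurable hT hT' _)

theorem avg1_summable {X : Type} (T : Equiv.Perm X) {a : ℤ → ℝ} (ha : Summable a)
    {G0 : X → ℝ} {M : ℝ} (hG : ∀ y, |G0 y| ≤ M) (y : X) :
    Summable fun l : ℤ => a l * G0 ((T ^ l) y) := by
  refine Summable.of_norm_bounded (g := fun l => |a l| * M) ((ha.abs).mul_right M) fun l => ?_
  rw [norm_mul, Real.norm_eq_abs, Real.norm_eq_abs]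
  exact mul_le_mul_of_nonneg_left (hG _) (abs_nonneg _)

theorem avg1_abs {X : Type} (T : Equiv.Perm X) {a : ℤ → ℝ} (ha : Summable a)
    {G0 : X → ℝ} {M : ℝ} (hG : ∀ y, |G0 y| ≤ M) (y : X) :
    |avg1 T a G0 y| ≤ (∑' l, |a l|) * M := by
  unfold avg1
  rw [← Real.norm_eq_abs, ← tsum_mul_right]
  refine tsum_of_norm_bounded ((ha.abs).mul_right M).hasSum fun l => ?_
  rw [norm_mul, Real.norm_eq_abs, Real.norm_eq_abs]
  exact mul_le_mul_of_nonneg_left (hG _) (abs_nonneg _)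

theorem avg1_measurable {X : Type} [MeasurableSpace X] {T : Equiv.Perm X} (hT : Measurable T)
    (hT' : Measurable T.symm) {a : ℤ → ℝ} (ha : Summable a) {G0 : X → ℝ} {M : ℝ}
    (hG : ∀ y, |G0 y| ≤ M) (hGm : Measurable G0) : Measurable (avg1 T a G0) := by
  refine measurable_of_tendsto_metrizable' (u := (atTop : Filter (Finset ℤ)))
    (f := fun s y => ∑ l ∈ s, a l * G0 ((T ^ l) y)) (fun s => ?_) ?_
  · refine Finset.measurable_fun_sum _ fun l _ => ?_
    exact (hGm.comp (zpow_measurable hT hT' _)).const_mul _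
  · rw [tendsto_pi_nhds]
    intro y
    exact (avg1_summable T ha hG y).hasSum

theorem avg_close {X : Type} (T : Equiv.Perm X) {d : ℝ} {a : ℤ → ℝ} (ha : Summable a)
    (ha1 : ∀ θ : ℝ, |θ| ≤ d → sym (fun l => (a l : ℂ)) θ = 1) {H : ℕ} (hH : 0 < H)
    {g : X → ℤ → ℝ} {M : ℝ} (hM : 0 ≤ M) (hg : ∀ x i, |g x i| ≤ M)
    (hgBL : ∀ x, BL d (fun i => (g x i : ℂ))) (y : X) :
    |avg0 T H g y - avg1 T a (avg0 T H g) y| ≤
      M * ∑' l : ℤ, |a l| * (min (2 * (H : ℝ)) (2 * |(l : ℝ)|) / H) := by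
  have hH' : (0 : ℝ) < H := by exact_mod_cast hH
  -- the function `F l i = g (T ^ (-i) y) (i + l)`
  set F : ℤ → ℤ → ℝ := fun l i => g ((T ^ (-i)) y) (i + l) with hF
  have hFM : ∀ l i, |F l i| ≤ M := fun l i => hg _ _
  have hsum (i : ℤ) : Summable fun l : ℤ => a l * F l i := by
    refine Summable.of_norm_bounded (g := fun l => |a l| * M) ((ha.abs).mul_right M) fun l => ?_
    rw [norm_mul, Real.norm_eq_abs, Real.norm_eq_abs]
    exact mul_le_mul_of_nonneg_left (hFM _ _) (abs_nonneg _)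
  have h0 : avg0 T H g y = ∑' l : ℤ, a l * ((∑ i ∈ Finset.range H, F l i) / H) := by
    have e1 : ∀ i ∈ Finset.range H, g ((T ^ (-(i : ℤ))) y) i = ∑' l : ℤ, a l * F l i := by
      intro i _
      exact (BL_repro ha ha1 ⟨M, fun n => hg _ n⟩ (hgBL ((T ^ (-(i : ℤ))) y)) i).symm
    unfold avg0
    have e2 : ∑' l : ℤ, ∑ i ∈ Finset.range H, a l * F l i =
        ∑ i ∈ Finset.range H, ∑' l : ℤ, a l * F l i :=
      Summable.tsum_finsetSum (f := fun (i : ℕ) (l : ℤ) => a l * F l i) (fun i _ => hsum i)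
    rw [Finset.sum_congr rfl e1, ← e2, ← tsum_div_const]
    refine tsum_congr fun l => ?_
    rw [← Finset.mul_sum, mul_div_assoc]
  have h1 : avg1 T a (avg0 T H g) y =
      ∑' l : ℤ, a l * ((∑ i ∈ Finset.range H, F l ((i : ℤ) - l)) / H) := by
    unfold avg1
    refine tsum_congr fun l => ?_
    unfold avg0
    congr 2
    refine Finset.sum_congr rfl fun j _ => ?_
    rw [hF]
    simp only
    rw [← Equiv.Perm.mul_apply, ← zpow_add, sub_add_cancel]
    congr 2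
    ring_nf
  have hs0 : Summable fun l : ℤ => a l * ((∑ i ∈ Finset.range H, F l i) / H) := by
    refine Summable.of_norm_bounded (g := fun l => |a l| * M) ((ha.abs).mul_right M) fun l => ?_
    rw [norm_mul, Real.norm_eq_abs, Real.norm_eq_abs]
    refine mul_le_mul_of_nonneg_left ?_ (abs_nonneg _)
    rw [abs_div, abs_of_pos hH', div_le_iff₀ hH']
    refine (Finset.abs_sum_le_sum_abs _ _).trans ?_
    refine (Finset.sum_le_sum fun i _ => hFM _ _).trans_eq ?_
    simp [mul_comm]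
  have hs1 : Summable fun l : ℤ => a l * ((∑ i ∈ Finset.range H, F l ((i : ℤ) - l)) / H) := by
    refine Summable.of_norm_bounded (g := fun l => |a l| * M) ((ha.abs).mul_right M) fun l => ?_
    rw [norm_mul, Real.norm_eq_abs, Real.norm_eq_abs]
    refine mul_le_mul_of_nonneg_left ?_ (abs_nonneg _)
    rw [abs_div, abs_of_pos hH', div_le_iff₀ hH']
    refine (Finset.abs_sum_le_sum_abs _ _).trans ?_
    refine (Finset.sum_le_sum fun i _ => hFM _ _).trans_eq ?_
    simp [mul_comm]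
  rw [h0, h1, ← hs0.tsum_sub hs1, ← Real.norm_eq_abs, ← tsum_mul_left]
  refine tsum_of_norm_bounded (g := fun l => M * (|a l| *
    (min (2 * (H : ℝ)) (2 * |(l : ℝ)|) / H))) ?_ fun l => ?_
  · refine Summable.hasSum ?_
    refine Summable.mul_left _ ?_
    refine Summable.of_norm_bounded (g := fun l => |a l| * 2) ((ha.abs).mul_right 2) fun l => ?_
    rw [Real.norm_eq_abs, abs_mul, abs_abs]
    refine mul_le_mul_of_nonneg_left ?_ (abs_nonneg _)
    rw [abs_of_nonneg (by positivity), div_le_iff₀ hH']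
    exact min_le_left _ _
  · rw [← mul_sub, ← sub_div, Real.norm_eq_abs, abs_mul, abs_div, abs_of_pos hH']
    have := window hM (hFM l) H l
    rw [abs_sub_comm] at this
    calc |a l| * (|∑ i ∈ Finset.range H, F l i - ∑ i ∈ Finset.range H, F l ((i : ℤ) - l)| / H)
        ≤ |a l| * ((M * min (2 * (H : ℝ)) (2 * |(l : ℝ)|)) / H) := by gcongr
      _ = _ := by ring

theorem integral_zpow {X : Type} [MeasurableSpace X] {μ : Measure X} {T : Equiv.Perm X}
    (hT : MeasurePreserving T μ μ) (hT' : MeasurePreserving T.symm μ μ) (n : ℤ) {f : X → ℝ}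
    (hf : Measurable f) : ∫ x, f ((T ^ n) x) ∂μ = ∫ x, f x ∂μ := by
  have h := zpow_mp hT hT' n
  calc ∫ x, f ((T ^ n) x) ∂μ = ∫ y, f y ∂(Measure.map (T ^ n : Equiv.Perm X) μ) :=
        (integral_map h.measurable.aemeasurable hf.aestronglyMeasurable).symm
    _ = ∫ x, f x ∂μ := by rw [h.map_eq]

theorem integrable_bdd {X : Type} [MeasurableSpace X] {μ : Measure X} [IsProbabilityMeasure μ]
    {f : X → ℝ} (hf : Measurable f) {C : ℝ} (hC : ∀ x, |f x| ≤ C) : Integrable f μ :=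
  Integrable.of_bound hf.aestronglyMeasurable C (ae_of_all _ hC)

theorem avg_integral {X : Type} [MeasurableSpace X] {μ : Measure X} [IsProbabilityMeasure μ]
    {T : Equiv.Perm X} (hT : MeasurePreserving T μ μ) (hT' : MeasurePreserving T.symm μ μ)
    {V : X → ℝ} (hV : Measurable V) {K : ℝ} (hK : ∀ x, |V x| ≤ K) {H : ℕ} (hH : 0 < H)
    {g : X → ℤ → ℝ} (hgm : ∀ i, Measurable fun x => g x i) {M : ℝ}
    (hg : ∀ x i, |g x i| ≤ M)
    {R : X → ℝ} (hR : Integrable R μ)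
    (hb : ∀ x, ∑ i ∈ Finset.range H, |Real.exp (-(V ((T ^ (i : ℤ)) x))) * g x i - 1| ≤ R x) :
    ∫ y, |Real.exp (-(V y)) * avg0 T H g y - 1| ∂μ ≤ (∫ x, R x ∂μ) / H := by
  have hH' : (0 : ℝ) < H := by exact_mod_cast hH
  have hTm := hT.measurable
  have hTm' := hT'.measurable
  have hm1 (i : ℤ) : Measurable fun y => |Real.exp (-(V y)) * g ((T ^ (-i)) y) i - 1| := by
    refine (Measurable.sub_const (Measurable.mul ?_ ?_) 1).abs
    · exact hV.neg.exp
    · exact (hgm i).comp (zpow_measurable hTm hTm' _)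
  have hbd {x : X} {t : ℝ} (ht : |t| ≤ M) : |Real.exp (-(V x)) * t - 1| ≤ Real.exp K * M + 1 := by
    have h1 := abs_sub (Real.exp (-(V x)) * t) 1
    have h2 : |Real.exp (-(V x)) * t| ≤ Real.exp K * M := by
      rw [abs_mul, abs_of_pos (Real.exp_pos _)]
      refine mul_le_mul (Real.exp_le_exp.2 ?_) ht (abs_nonneg _) (Real.exp_pos _).le
      exact (neg_le_abs _).trans (hK x)
    rw [abs_one] at h1
    linarith
  have hi1 (i : ℤ) : Integrable (fun y => |Real.exp (-(V y)) * g ((T ^ (-i)) y) i - 1|) μ :=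
    integrable_bdd (hm1 i) (C := Real.exp K * M + 1) fun x => by
      rw [abs_abs]; exact hbd (hg _ _)
  have hm2 (i : ℤ) : Measurable fun x => |Real.exp (-(V ((T ^ i) x))) * g x i - 1| := by
    refine (Measurable.sub_const (Measurable.mul ?_ ?_) 1).abs
    · exact (hV.comp (zpow_measurable hTm hTm' _)).neg.exp
    · exact hgm i
  have hi2 (i : ℤ) : Integrable (fun x => |Real.exp (-(V ((T ^ i) x))) * g x i - 1|) μ :=
    integrable_bdd (hm2 i) (C := Real.exp K * M + 1) fun x => by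
      rw [abs_abs]; exact hbd (x := (T ^ i) x) (hg _ _)
  have hsub (i : ℤ) : ∫ y, |Real.exp (-(V y)) * g ((T ^ (-i)) y) i - 1| ∂μ =
      ∫ x, |Real.exp (-(V ((T ^ i) x))) * g x i - 1| ∂μ := by
    rw [← integral_zpow hT hT' i (hm1 i)]
    refine integral_congr_ae (ae_of_all _ fun x => ?_)
    simp only
    rw [← Equiv.Perm.mul_apply, ← zpow_add, neg_add_cancel, zpow_zero]
    rfl
  have hpt : ∀ y, |Real.exp (-(V y)) * avg0 T H g y - 1| ≤
      (∑ i ∈ Finset.range H, |Real.exp (-(V y)) * g ((T ^ (-(i : ℤ))) y) i - 1|) / H := by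
    intro y
    have e : Real.exp (-(V y)) * avg0 T H g y - 1 =
        (∑ i ∈ Finset.range H, (Real.exp (-(V y)) * g ((T ^ (-(i : ℤ))) y) i - 1)) / H := by
      unfold avg0
      rw [Finset.sum_sub_distrib, ← Finset.mul_sum]
      simp only [Finset.sum_const, Finset.card_range, nsmul_eq_mul, mul_one]
      field_simp
    rw [e, abs_div, abs_of_pos hH']
    exact div_le_div_of_nonneg_right (Finset.abs_sum_le_sum_abs _ _) hH'.le
  have e1 : ∫ y, (∑ i ∈ Finset.range H,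
      |Real.exp (-(V y)) * g ((T ^ (-(i : ℤ))) y) i - 1|) ∂μ =
      ∑ i ∈ Finset.range H, ∫ y, |Real.exp (-(V y)) * g ((T ^ (-(i : ℤ))) y) i - 1| ∂μ :=
    integral_finsetSum (f := fun (i : ℕ) (y : X) =>
      |Real.exp (-(V y)) * g ((T ^ (-(i : ℤ))) y) i - 1|) _ fun i _ => hi1 i
  have e2 : ∫ x, (∑ i ∈ Finset.range H,
      |Real.exp (-(V ((T ^ (i : ℤ)) x))) * g x i - 1|) ∂μ =
      ∑ i ∈ Finset.range H, ∫ x, |Real.exp (-(V ((T ^ (i : ℤ)) x))) * g x i - 1| ∂μ :=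
    integral_finsetSum (f := fun (i : ℕ) (x : X) =>
      |Real.exp (-(V ((T ^ (i : ℤ)) x))) * g x i - 1|) _ fun i _ => hi2 i
  have e3 : Integrable (fun y => ∑ i ∈ Finset.range H,
      |Real.exp (-(V y)) * g ((T ^ (-(i : ℤ))) y) i - 1|) μ :=
    integrable_finsetSum (f := fun (i : ℕ) (y : X) =>
      |Real.exp (-(V y)) * g ((T ^ (-(i : ℤ))) y) i - 1|) _ fun i _ => hi1 i
  have e4 : Integrable (fun x => ∑ i ∈ Finset.range H,
      |Real.exp (-(V ((T ^ (i : ℤ)) x))) * g x i - 1|) μ :=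
    integrable_finsetSum (f := fun (i : ℕ) (x : X) =>
      |Real.exp (-(V ((T ^ (i : ℤ)) x))) * g x i - 1|) _ fun i _ => hi2 i
  calc ∫ y, |Real.exp (-(V y)) * avg0 T H g y - 1| ∂μ
      ≤ ∫ y, (∑ i ∈ Finset.range H,
          |Real.exp (-(V y)) * g ((T ^ (-(i : ℤ))) y) i - 1|) / H ∂μ := by
        refine integral_mono_of_nonneg (ae_of_all _ fun y => abs_nonneg _) ?_ (ae_of_all _ hpt)
        exact e3.div_const _
    _ = (∑ i ∈ Finset.range H,
          ∫ y, |Real.exp (-(V y)) * g ((T ^ (-(i : ℤ))) y) i - 1| ∂μ) / H := by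
        rw [integral_div, e1]
    _ = (∑ i ∈ Finset.range H,
          ∫ x, |Real.exp (-(V ((T ^ (i : ℤ)) x))) * g x i - 1| ∂μ) / H := by
        congr 1
        exact Finset.sum_congr rfl fun i _ => hsub i
    _ = (∫ x, ∑ i ∈ Finset.range H,
          |Real.exp (-(V ((T ^ (i : ℤ)) x))) * g x i - 1| ∂μ) / H := by
        rw [e2]
    _ ≤ (∫ x, R x ∂μ) / H := by
        refine div_le_div_of_nonneg_right ?_ hH'.le
        exact integral_mono e4 hR hb

/-- The selection for one period. -/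
theorem sel_period {d C0 ε1 τ0 : ℝ} (hC0 : 1 ≤ C0) (hε : 0 < ε1) (hτ0 : 0 < τ0) {H : ℕ}
    (v : ℤ → ℝ)
    (hF : ∑ i ∈ Finset.range H, |v ((i : ℤ) + 1) - v i| ≤ τ0 * H →
      ∃ G : ℤ → ℝ, BL d (fun i => (G i : ℂ)) ∧ (∀ i, 0 ≤ G i) ∧
        (∀ i, Real.exp (-(v i)) * G i ≤ C0) ∧
        ∑ i ∈ Finset.range H, |Real.exp (-(v i)) * G i - 1| ≤ ε1 * H) :
    ∃ G : ℤ → ℝ, BL d (fun i => (G i : ℂ)) ∧ (∀ i, 0 ≤ G i) ∧
        (∀ i, Real.exp (-(v i)) * G i ≤ C0) ∧
        ∑ i ∈ Finset.range H, |Real.exp (-(v i)) * G i - 1| ≤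
          ε1 * H + (∑ i ∈ Finset.range H, |v ((i : ℤ) + 1) - v i|) / τ0 := by
  have hD : 0 ≤ ∑ i ∈ Finset.range H, |v ((i : ℤ) + 1) - v i| :=
    Finset.sum_nonneg fun i _ => abs_nonneg _
  by_cases h : ∑ i ∈ Finset.range H, |v ((i : ℤ) + 1) - v i| ≤ τ0 * H
  · obtain ⟨G, h1, h2, h3, h4⟩ := hF h
    refine ⟨G, h1, h2, h3, h4.trans ?_⟩
    have := div_nonneg hD hτ0.le
    linarith
  · refine ⟨fun _ => 0, ?_, fun _ => le_rfl, fun i => by simpa using by linarith, ?_⟩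
    · intro a _ _
      simp
    · push Not at h
      have h1 : (H : ℝ) ≤ (∑ i ∈ Finset.range H, |v ((i : ℤ) + 1) - v i|) / τ0 := by
        rw [le_div_iff₀ hτ0]
        linarith
      have h2 : ∑ i ∈ Finset.range H, |Real.exp (-(v i)) * 0 - 1| = (H : ℝ) := by
        simp
      rw [h2]
      have h3 : 0 ≤ ε1 * H := by positivity
      linarith

/-- The discretised values of `V` along a piece of the orbit. -/
noncomputable def cc {X : Type} (T : Equiv.Perm X) (V : X → ℝ) (σ : ℝ) (H : ℕ) (x : X)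
    (j : ZMod H) : ℤ := ⌊V ((T ^ (j.val : ℤ)) x) / σ⌋

/-- The periodic sequence of a tuple. -/
noncomputable def vv (σ : ℝ) (H : ℕ) (c : ZMod H → ℤ) (i : ℤ) : ℝ := σ * (c (i : ZMod H) : ℝ)

theorem vv_periodic (σ : ℝ) (H : ℕ) (c : ZMod H → ℤ) (i : ℤ) :
    vv σ H c (i + H) = vv σ H c i := by
  unfold vv
  congr 3
  push_cast
  simp

theorem floor_near {σ : ℝ} (hσ : 0 < σ) (t : ℝ) :
    t - σ ≤ σ * (⌊t / σ⌋ : ℝ) ∧ σ * (⌊t / σ⌋ : ℝ) ≤ t := by
  have h1 := Int.floor_le (t / σ)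
  have h2 := Int.lt_floor_add_one (t / σ)
  rw [le_div_iff₀ hσ] at h1
  rw [div_lt_iff₀ hσ] at h2
  constructor
  · nlinarith
  · linarith

theorem vv_eq {X : Type} (T : Equiv.Perm X) (V : X → ℝ) (σ : ℝ) {H : ℕ} (x : X) {i : ℕ}
    (hi : i < H) : vv σ H (cc T V σ H x) i = σ * (⌊V ((T ^ (i : ℤ)) x) / σ⌋ : ℝ) := by
  unfold vv cc
  rw [Int.cast_natCast, ZMod.val_natCast_of_lt hi]

theorem vv_near {X : Type} (T : Equiv.Perm X) (V : X → ℝ) {σ : ℝ} (hσ : 0 < σ) {H : ℕ} (x : X)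
    {i : ℕ} (hi : i < H) : V ((T ^ (i : ℤ)) x) - σ ≤ vv σ H (cc T V σ H x) i ∧
      vv σ H (cc T V σ H x) i ≤ V ((T ^ (i : ℤ)) x) := by
  rw [vv_eq T V σ x hi]
  exact floor_near hσ _

theorem vv_le {X : Type} (T : Equiv.Perm X) {V : X → ℝ} {K : ℝ} (hK : ∀ x, |V x| ≤ K) {σ : ℝ}
    (hσ : 0 < σ) (H : ℕ) (x : X) (i : ℤ) : vv σ H (cc T V σ H x) i ≤ K := by
  unfold vv cc
  exact (floor_near hσ _).2.trans ((le_abs_self _).trans (hK _))

theorem vv_abs {X : Type} (T : Equiv.Perm X) {V : X → ℝ} {K : ℝ} (hK : ∀ x, |V x| ≤ K) {σ : ℝ}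
    (hσ : 0 < σ) (H : ℕ) (x : X) (i : ℤ) : |vv σ H (cc T V σ H x) i| ≤ K + σ := by
  unfold vv cc
  have h1 := floor_near hσ (V ((T ^ (((i : ZMod H)).val : ℤ)) x))
  have h2 := abs_le.1 (hK ((T ^ (((i : ZMod H)).val : ℤ)) x))
  rw [abs_le]
  constructor <;> linarith [h1.1, h1.2, h2.1, h2.2]

/-- The variation of the discretised sequence. -/
theorem disc_var {X : Type} (T : Equiv.Perm X) {V : X → ℝ} {K : ℝ} (hK : ∀ x, |V x| ≤ K)
    {σ : ℝ} (hσ : 0 < σ) (hσ1 : σ ≤ 1) {H : ℕ} (hH : 0 < H) (x : X) :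
    ∑ i ∈ Finset.range H, |vv σ H (cc T V σ H x) ((i : ℤ) + 1) - vv σ H (cc T V σ H x) i| ≤
      (∑ i ∈ Finset.range H, (|V (T ((T ^ (i : ℤ)) x)) - V ((T ^ (i : ℤ)) x)| + 2 * σ)) +
        2 * (K + 1) := by
  obtain ⟨m, rfl⟩ : ∃ m, H = m + 1 := ⟨H - 1, by omega⟩
  rw [Finset.sum_range_succ, Finset.sum_range_succ
    (fun i : ℕ => |V (T ((T ^ (i : ℤ)) x)) - V ((T ^ (i : ℤ)) x)| + 2 * σ)]
  have h1 : ∑ i ∈ Finset.range m, |vv σ (m + 1) (cc T V σ (m + 1) x) ((i : ℤ) + 1) -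
      vv σ (m + 1) (cc T V σ (m + 1) x) i| ≤
      ∑ i ∈ Finset.range m, (|V (T ((T ^ (i : ℤ)) x)) - V ((T ^ (i : ℤ)) x)| + 2 * σ) := by
    refine Finset.sum_le_sum fun i hi => ?_
    rw [Finset.mem_range] at hi
    have a1 := vv_near T V hσ (H := m + 1) x (i := i) (by omega)
    have a2 := vv_near T V hσ (H := m + 1) x (i := i + 1) (by omega)
    have a3 : (T ^ (((i + 1 : ℕ)) : ℤ)) x = T ((T ^ (i : ℤ)) x) := by
      push_cast
      rw [add_comm, zpow_one_add]
      rfl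
    rw [a3] at a2
    push_cast at a2
    have a4 := neg_abs_le (V (T ((T ^ (i : ℤ)) x)) - V ((T ^ (i : ℤ)) x))
    have a5 := le_abs_self (V (T ((T ^ (i : ℤ)) x)) - V ((T ^ (i : ℤ)) x))
    rw [abs_le]
    constructor <;> linarith [a1.1, a1.2, a2.1, a2.2]
  have h2 : |vv σ (m + 1) (cc T V σ (m + 1) x) ((m : ℤ) + 1) -
      vv σ (m + 1) (cc T V σ (m + 1) x) m| ≤ 2 * (K + 1) := by
    have b1 := abs_sub (vv σ (m + 1) (cc T V σ (m + 1) x) ((m : ℤ) + 1))
      (vv σ (m + 1) (cc T V σ (m + 1) x) m)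
    have b2 := vv_abs T hK hσ (m + 1) x ((m : ℤ) + 1)
    have b3 := vv_abs T hK hσ (m + 1) x (m : ℤ)
    linarith
  have h3 : 0 ≤ |V (T ((T ^ (m : ℤ)) x)) - V ((T ^ (m : ℤ)) x)| + 2 * σ := by positivity
  linarith

theorem cc_measurable {X : Type} [MeasurableSpace X] {T : Equiv.Perm X} (hT : Measurable T)
    (hT' : Measurable T.symm) {V : X → ℝ} (hV : Measurable V) (σ : ℝ) (H : ℕ) :
    Measurable (cc T V σ H) := by
  rw [measurable_pi_iff]
  intro j
  unfold cc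
  exact Int.measurable_floor.comp ((hV.comp (zpow_measurable hT hT' _)).div_const σ)

/-- Changing the exponent slightly. -/
theorem exp_near {t σ z p q : ℝ} (h1 : p ≤ q) (h2 : q ≤ p + σ)
    (ht : Real.exp (-p) * z = t) : |Real.exp (-q) * z - 1| ≤ |t - 1| + σ := by
  have hq : Real.exp (-q) = Real.exp (-(q - p)) * Real.exp (-p) := by
    rw [← Real.exp_add]; congr 1; ring
  have e : Real.exp (-q) * z = Real.exp (-(q - p)) * t := by rw [hq, mul_assoc, ht]
  rw [e]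
  have a1 : Real.exp (-(q - p)) ≤ 1 := Real.exp_le_one_iff.2 (by linarith)
  have a2 : 1 - (q - p) ≤ Real.exp (-(q - p)) := by
    have := Real.add_one_le_exp (-(q - p))
    linarith
  have a3 : Real.exp (-(q - p)) * t - 1 =
      Real.exp (-(q - p)) * (t - 1) + (Real.exp (-(q - p)) - 1) := by ring
  rw [a3]
  have a4 := abs_add_le (Real.exp (-(q - p)) * (t - 1)) (Real.exp (-(q - p)) - 1)
  have a5 : |Real.exp (-(q - p)) * (t - 1)| ≤ |t - 1| := by
    rw [abs_mul, abs_of_pos (Real.exp_pos _)]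
    exact mul_le_of_le_one_left (abs_nonneg _) a1
  have a6 : |Real.exp (-(q - p)) - 1| ≤ σ := by
    rw [abs_le]
    constructor <;> linarith
  linarith

/-- The transference lemma for one function `V`. -/
theorem transfer_one {d C0 ε τ0 τ : ℝ} (hC0 : 1 ≤ C0) (hε : 0 < ε) (hτ0 : 0 < τ0)
    (hτ : τ = τ0 * ε / 8) {H0 : ℕ}
    (hFKL : ∀ H : ℕ, H0 ≤ H → ∀ v : ℤ → ℝ, (∀ i, v (i + H) = v i) →
      ∑ i ∈ Finset.range H, |v ((i : ℤ) + 1) - v i| ≤ τ0 * H →
      ∃ G : ℤ → ℝ, BL (d / 2) (fun i => (G i : ℂ)) ∧ (∀ i, 0 ≤ G i) ∧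
        (∀ i, Real.exp (-(v i)) * G i ≤ C0) ∧
        ∑ i ∈ Finset.range H, |Real.exp (-(v i)) * G i - 1| ≤ ε / 8 * H)
    {a : ℤ → ℝ} (ha : Summable a)
    (ha1 : ∀ θ : ℝ, |θ| ≤ d / 2 → sym (fun l => (a l : ℂ)) θ = 1)
    (havg : ∀ φ : ℤ → ℂ, (∃ C, ∀ n, ‖φ n‖ ≤ C) → BL d (fun n => ∑' l : ℤ, (a l : ℂ) * φ (n + l)))
    {X : Type} [MeasurableSpace X] (μ : Measure X) [IsProbabilityMeasure μ]
    (T : Equiv.Perm X) (hT : MeasurePreserving T μ μ) (hT' : MeasurePreserving T.symm μ μ)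
    (V : X → ℝ) (hV : Measurable V) {K : ℝ} (hK : ∀ x, |V x| ≤ K)
    (hVT : ∫ x, |V (T x) - V x| ∂μ ≤ τ) :
    ∃ G : X → ℝ, Measurable G ∧ (∃ K, ∀ x, |G x| ≤ K) ∧
        (∀ x, BL d (fun n : ℤ => (G ((T ^ n) x) : ℂ))) ∧
        (∀ x, |Real.exp (-(V x)) * G x| ≤ C0 + 1) ∧
        ∫ x, |Real.exp (-(V x)) * G x - 1| ∂μ ≤ ε := by
  classical
  have hTm := hT.measurable
  have hTm' := hT'.measurable
  set σ : ℝ := min 1 (min (ε / 8) (τ0 * ε / 16)) with hσdef
  have hσ : 0 < σ := by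
    rw [hσdef]
    refine lt_min one_pos (lt_min ?_ ?_) <;> positivity
  have hσ1 : σ ≤ 1 := min_le_left _ _
  have hσ2 : σ ≤ ε / 8 := (min_le_right _ _).trans (min_le_left _ _)
  have hσ3 : σ ≤ τ0 * ε / 16 := (min_le_right _ _).trans (min_le_right _ _)
  set M : ℝ := C0 * Real.exp K with hMdef
  have hM : 0 ≤ M := by rw [hMdef]; positivity
  -- choice of the length
  have hlim1 : Tendsto (fun H : ℕ => Real.exp K * (M * ∑' l : ℤ, |a l| *
      (min (2 * (H : ℝ)) (2 * |(l : ℝ)|) / H))) atTop (𝓝 0) := by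
    have h1 := ((kernel_tail ha).const_mul M).const_mul (Real.exp K)
    simpa using h1
  have hlim2 : Tendsto (fun H : ℕ => (2 * (K + 1) / τ0) / (H : ℝ)) atTop (𝓝 0) :=
    tendsto_const_div_atTop_nhds_zero_nat _
  have hc1 : (0 : ℝ) < min 1 (ε / 8) := lt_min one_pos (by positivity)
  obtain ⟨H, hH1, hH2, hH3, hHpos⟩ := ((hlim1.eventually (gt_mem_nhds hc1)).and
    ((hlim2.eventually (gt_mem_nhds (show (0 : ℝ) < ε / 8 by positivity))).and
      ((eventually_ge_atTop H0).and (eventually_gt_atTop 0)))).exists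
  have hH' : (0 : ℝ) < H := by exact_mod_cast hHpos
  have : NeZero H := ⟨hHpos.ne'⟩
  -- the choice for each tuple
  have hsel (c : ZMod H → ℤ) := sel_period (d := d / 2) (C0 := C0) (ε1 := ε / 8) (τ0 := τ0) hC0
    (by positivity) hτ0 (H := H) (vv σ H c)
    (fun h => hFKL H hH3 (vv σ H c) (vv_periodic σ H c) h)
  choose Gc hGc1 hGc2 hGc3 hGc4 using hsel
  set g : X → ℤ → ℝ := fun x => Gc (cc T V σ H x) with hgdef
  have hgm : ∀ i, Measurable fun x => g x i := by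
    intro i
    have h1 : Measurable (fun c : ZMod H → ℤ => Gc c i) := measurable_of_countable _
    exact h1.comp (cc_measurable hTm hTm' hV σ H)
  have hg0 : ∀ x i, 0 ≤ g x i := fun x i => hGc2 _ i
  have hgM : ∀ x i, |g x i| ≤ M := by
    intro x i
    rw [abs_of_nonneg (hg0 x i)]
    have h1 := hGc3 (cc T V σ H x) i
    have h2 := vv_le T hK hσ H x i
    have h3 : g x i = Real.exp (vv σ H (cc T V σ H x) i) *
        (Real.exp (-(vv σ H (cc T V σ H x) i)) * g x i) := by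
      rw [← mul_assoc, ← Real.exp_add, add_neg_cancel, Real.exp_zero, one_mul]
    rw [h3, hMdef, mul_comm C0]
    refine mul_le_mul (Real.exp_le_exp.2 h2) h1 ?_ (Real.exp_pos _).le
    exact mul_nonneg (Real.exp_pos _).le (hg0 x i)
  have hgBL : ∀ x, BL (d / 2) (fun i => (g x i : ℂ)) := fun x => hGc1 _
  -- the variation
  set D : X → ℝ := fun x => ∑ i ∈ Finset.range H,
    |vv σ H (cc T V σ H x) ((i : ℤ) + 1) - vv σ H (cc T V σ H x) i| with hDdef
  have hDm : Measurable D := by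
    have h1 : Measurable (fun c : ZMod H → ℤ => ∑ i ∈ Finset.range H,
        |vv σ H c ((i : ℤ) + 1) - vv σ H c i|) := measurable_of_countable _
    exact h1.comp (cc_measurable hTm hTm' hV σ H)
  have hDi : Integrable D μ := by
    refine integrable_bdd hDm (C := H * (2 * (K + σ))) fun x => ?_
    rw [hDdef]
    refine (Finset.abs_sum_le_sum_abs _ _).trans ?_
    refine (Finset.sum_le_sum (g := fun _ => 2 * (K + σ)) fun i _ => ?_).trans_eq (by simp)
    rw [abs_abs]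
    have b1 := abs_sub (vv σ H (cc T V σ H x) ((i : ℤ) + 1)) (vv σ H (cc T V σ H x) i)
    have b2 := vv_abs T hK hσ H x ((i : ℤ) + 1)
    have b3 := vv_abs T hK hσ H x (i : ℤ)
    linarith
  have hfm : Measurable fun x => |V (T x) - V x| := ((hV.comp hTm).sub hV).abs
  have hfi : Integrable (fun x => |V (T x) - V x|) μ := by
    refine integrable_bdd hfm (C := 2 * K) fun x => ?_
    rw [abs_abs]
    have b1 := abs_sub (V (T x)) (V x)
    have b2 := hK (T x)
    have b3 := hK x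
    linarith
  have hfi' (i : ℤ) : Integrable (fun x => |V (T ((T ^ i) x)) - V ((T ^ i) x)|) μ :=
    (zpow_mp hT hT' i).integrable_comp_of_integrable hfi
  have hDint : ∫ x, D x ∂μ ≤ H * (τ + 2 * σ) + 2 * (K + 1) := by
    have e1 : ∫ x, (∑ i ∈ Finset.range H,
        (|V (T ((T ^ (i : ℤ)) x)) - V ((T ^ (i : ℤ)) x)| + 2 * σ)) ∂μ =
        ∑ i ∈ Finset.range H, ∫ x, (|V (T ((T ^ (i : ℤ)) x)) - V ((T ^ (i : ℤ)) x)| + 2 * σ) ∂μ :=
      integral_finsetSum (f := fun (i : ℕ) (x : X) =>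
        |V (T ((T ^ (i : ℤ)) x)) - V ((T ^ (i : ℤ)) x)| + 2 * σ) _
        fun i _ => (hfi' i).add (integrable_const _)
    have e3 : Integrable (fun x => ∑ i ∈ Finset.range H,
        (|V (T ((T ^ (i : ℤ)) x)) - V ((T ^ (i : ℤ)) x)| + 2 * σ)) μ :=
      integrable_finsetSum (f := fun (i : ℕ) (x : X) =>
        |V (T ((T ^ (i : ℤ)) x)) - V ((T ^ (i : ℤ)) x)| + 2 * σ) _
        fun i _ => (hfi' i).add (integrable_const _)
    have e2 : ∀ i : ℕ, ∫ x, (|V (T ((T ^ (i : ℤ)) x)) - V ((T ^ (i : ℤ)) x)| + 2 * σ) ∂μ ≤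
        τ + 2 * σ := by
      intro i
      rw [integral_add (hfi' i) (integrable_const _), integral_const]
      have h1 := integral_zpow hT hT' (i : ℤ) hfm
      rw [h1]
      simp only [probReal_univ, smul_eq_mul, one_mul]
      linarith
    calc ∫ x, D x ∂μ ≤ ∫ x, ((∑ i ∈ Finset.range H,
          (|V (T ((T ^ (i : ℤ)) x)) - V ((T ^ (i : ℤ)) x)| + 2 * σ)) + 2 * (K + 1)) ∂μ :=
          integral_mono hDi (e3.add (integrable_const _))
            fun x => disc_var T hK hσ hσ1 hHpos x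
      _ = (∑ i ∈ Finset.range H,
          ∫ x, (|V (T ((T ^ (i : ℤ)) x)) - V ((T ^ (i : ℤ)) x)| + 2 * σ) ∂μ) + 2 * (K + 1) := by
          rw [integral_add e3 (integrable_const _), integral_const, e1]
          simp
      _ ≤ (∑ _i ∈ Finset.range H, (τ + 2 * σ)) + 2 * (K + 1) := by
          gcongr with i _
          exact e2 i
      _ = H * (τ + 2 * σ) + 2 * (K + 1) := by
          rw [Finset.sum_const, Finset.card_range, nsmul_eq_mul]
  set R : X → ℝ := fun x => (ε / 8 * H + D x / τ0) + σ * H with hRdef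
  have hRi : Integrable R μ :=
    ((integrable_const _).add (hDi.div_const _)).add (integrable_const _)
  have hRb : ∀ x, ∑ i ∈ Finset.range H, |Real.exp (-(V ((T ^ (i : ℤ)) x))) * g x i - 1| ≤ R x := by
    intro x
    have h1 : ∀ i ∈ Finset.range H, |Real.exp (-(V ((T ^ (i : ℤ)) x))) * g x i - 1| ≤
        |Real.exp (-(vv σ H (cc T V σ H x) i)) * g x i - 1| + σ := by
      intro i hi
      rw [Finset.mem_range] at hi
      have h2 := vv_near T V hσ x hi
      exact exp_near h2.2 (by linarith [h2.1]) rfl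
    refine (Finset.sum_le_sum h1).trans ?_
    rw [Finset.sum_add_distrib, Finset.sum_const, Finset.card_range, nsmul_eq_mul]
    have h3 := hGc4 (cc T V σ H x)
    rw [hRdef]
    simp only
    linarith
  have hmain := avg_integral hT hT' hV hK hHpos hgm hgM hRi hRb
  have hRint : (∫ x, R x ∂μ) / H ≤ 5 * (ε / 8) := by
    have e1 : ∫ x, R x ∂μ = (ε / 8 * H + (∫ x, D x ∂μ) / τ0) + σ * H := by
      have f1 : Integrable (fun _ : X => ε / 8 * (H : ℝ)) μ := integrable_const _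
      have f2 : Integrable (fun x : X => D x / τ0) μ := hDi.div_const _
      have f3 : Integrable (fun x : X => ε / 8 * (H : ℝ) + D x / τ0) μ := f1.add f2
      have f4 : Integrable (fun _ : X => σ * (H : ℝ)) μ := integrable_const _
      have g1 : ∫ x, R x ∂μ = ∫ x, (ε / 8 * (H : ℝ) + D x / τ0) ∂μ + ∫ _x, σ * (H : ℝ) ∂μ :=
        integral_add f3 f4
      have g2 : ∫ x, (ε / 8 * (H : ℝ) + D x / τ0) ∂μ =
          ∫ _x, ε / 8 * (H : ℝ) ∂μ + ∫ x, D x / τ0 ∂μ := integral_add f1 f2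
      rw [g1, g2, integral_div, integral_const, integral_const]
      simp
    rw [e1, div_le_iff₀ hH']
    have e2 : (∫ x, D x ∂μ) / τ0 ≤ (H * (τ + 2 * σ) + 2 * (K + 1)) / τ0 :=
      div_le_div_of_nonneg_right hDint hτ0.le
    have e3 : 2 * (K + 1) / τ0 ≤ ε / 8 * H := by
      have h1 := hH2.le
      rw [div_le_iff₀ hH'] at h1
      exact h1
    have e4 : (H * (τ + 2 * σ)) / τ0 ≤ H * (ε / 8 + ε / 8) := by
      rw [div_le_iff₀ hτ0, mul_assoc]
      refine mul_le_mul_of_nonneg_left ?_ hH'.le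
      rw [hτ]
      nlinarith
    have e5 : σ * H ≤ ε / 8 * H := mul_le_mul_of_nonneg_right hσ2 hH'.le
    rw [add_div] at e2
    nlinarith
  -- the smoothed function
  set G0 : X → ℝ := avg0 T H g with hG0def
  have hG0abs : ∀ y, |G0 y| ≤ M := fun y => avg0_abs T hHpos hgM y
  have hG0m : Measurable G0 := avg0_measurable hTm hTm' H hgm
  have hG0nn : ∀ y, 0 ≤ G0 y := by
    intro y
    rw [hG0def]
    unfold avg0
    exact div_nonneg (Finset.sum_nonneg fun i _ => hg0 _ _) hH'.le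
  have hG0C : ∀ y, Real.exp (-(V y)) * G0 y ≤ C0 := by
    intro y
    rw [hG0def]
    unfold avg0
    rw [← mul_div_assoc, div_le_iff₀ hH', Finset.mul_sum]
    refine (Finset.sum_le_sum (g := fun _ => C0) fun i hi => ?_).trans_eq (by simp [mul_comm])
    rw [Finset.mem_range] at hi
    have h2 := vv_near T V hσ ((T ^ (-(i : ℤ))) y) hi
    rw [← Equiv.Perm.mul_apply, ← zpow_add, add_neg_cancel, zpow_zero, Equiv.Perm.one_apply] at h2
    refine le_trans ?_ (hGc3 (cc T V σ H ((T ^ (-(i : ℤ))) y)) i)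
    refine mul_le_mul_of_nonneg_right (Real.exp_le_exp.2 ?_) (hg0 _ _)
    linarith [h2.2]
  have hclose : ∀ y, |Real.exp (-(V y)) * (avg1 T a G0 y - G0 y)| ≤ min 1 (ε / 8) := by
    intro y
    rw [abs_mul, abs_of_pos (Real.exp_pos _), abs_sub_comm]
    refine le_trans ?_ hH1.le
    refine mul_le_mul ?_ (avg_close T ha ha1 hHpos hM hgM hgBL y) (abs_nonneg _) (Real.exp_pos _).le
    exact Real.exp_le_exp.2 ((neg_le_abs _).trans (hK y))
  have hG1m : Measurable (avg1 T a G0) := avg1_measurable hTm hTm' ha hG0abs hG0m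
  refine ⟨avg1 T a G0, hG1m, ⟨_, avg1_abs T ha hG0abs⟩, ?_, ?_, ?_⟩
  · intro x
    have h1 := havg (fun n => (G0 ((T ^ n) x) : ℂ)) ⟨M, fun n => by
      rw [Complex.norm_real]; exact hG0abs _⟩
    have h2 : (fun n : ℤ => (avg1 T a G0 ((T ^ n) x) : ℂ)) =
        fun n : ℤ => ∑' l : ℤ, (a l : ℂ) * (G0 ((T ^ (n + l)) x) : ℂ) := by
      funext n
      unfold avg1
      rw [Complex.ofReal_tsum]
      refine tsum_congr fun l => ?_
      rw [← Equiv.Perm.mul_apply, ← zpow_add, add_comm l n]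
      push_cast
      ring
    rw [h2]
    exact h1
  · intro y
    have h1 := hclose y
    have h2 : Real.exp (-(V y)) * avg1 T a G0 y =
        Real.exp (-(V y)) * G0 y + Real.exp (-(V y)) * (avg1 T a G0 y - G0 y) := by ring
    rw [h2]
    refine (abs_add_le _ _).trans ?_
    have h3 : |Real.exp (-(V y)) * G0 y| ≤ C0 := by
      rw [abs_of_nonneg (mul_nonneg (Real.exp_pos _).le (hG0nn y))]
      exact hG0C y
    have h4 := h1.trans (min_le_left _ _)
    linarith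
  · have hpt : ∀ y, |Real.exp (-(V y)) * avg1 T a G0 y - 1| ≤
        |Real.exp (-(V y)) * G0 y - 1| + ε / 8 := by
      intro y
      have h1 := (hclose y).trans (min_le_right _ _)
      have h2 : Real.exp (-(V y)) * avg1 T a G0 y - 1 =
          (Real.exp (-(V y)) * G0 y - 1) + Real.exp (-(V y)) * (avg1 T a G0 y - G0 y) := by ring
      rw [h2]
      exact (abs_add_le _ _).trans (by linarith)
    have hm0 : Measurable fun y => |Real.exp (-(V y)) * G0 y - 1| :=
      (Measurable.sub_const (hV.neg.exp.mul hG0m) 1).abs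
    have hi0 : Integrable (fun y => |Real.exp (-(V y)) * G0 y - 1|) μ := by
      refine integrable_bdd hm0 (C := C0 + 1) fun y => ?_
      rw [abs_abs]
      have h1 := abs_sub (Real.exp (-(V y)) * G0 y) 1
      have h3 : |Real.exp (-(V y)) * G0 y| ≤ C0 := by
        rw [abs_of_nonneg (mul_nonneg (Real.exp_pos _).le (hG0nn y))]
        exact hG0C y
      rw [abs_one] at h1
      linarith
    have hi1 : Integrable (fun y => |Real.exp (-(V y)) * G0 y - 1| + ε / 8) μ :=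
      hi0.add (integrable_const _)
    calc ∫ y, |Real.exp (-(V y)) * avg1 T a G0 y - 1| ∂μ
        ≤ ∫ y, (|Real.exp (-(V y)) * G0 y - 1| + ε / 8) ∂μ :=
          integral_mono_of_nonneg (ae_of_all _ fun y => abs_nonneg _) hi1 (ae_of_all _ hpt)
      _ = ∫ y, |Real.exp (-(V y)) * G0 y - 1| ∂μ + ε / 8 := by
          rw [integral_add hi0 (integrable_const _), integral_const]
          simp
      _ ≤ 5 * (ε / 8) + ε / 8 := by linarith
      _ ≤ ε := by linarith

/-- BI-16 with its ingredients as hypotheses. -/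
theorem transfer_aux
    (hker : ∀ {r r' : ℝ}, 0 < r → r < r' → r' < 1 / 2 →
      ∃ a : ℤ → ℝ, Summable a ∧ (∀ l, a (-l) = a l) ∧
        (∀ θ : ℝ, |θ| ≤ r → sym (fun l => (a l : ℂ)) θ = 1) ∧
        (∀ θ : ℝ, r' ≤ |θ| → |θ| ≤ 1 / 2 → sym (fun l => (a l : ℂ)) θ = 0))
    (havg : ∀ {r : ℝ} {a : ℤ → ℂ}, Summable a →
      (∀ θ : ℝ, r < |θ| → |θ| ≤ 1 / 2 → sym a θ = 0) →
      ∀ {φ : ℤ → ℂ}, (∃ C, ∀ n, ‖φ n‖ ≤ C) → BL r (fun n => ∑' l : ℤ, a l * φ (n + l)))
    (hFKL : ∀ d : ℝ, 0 < d → d < 1 / 2 →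
      ∃ C : ℝ, 1 ≤ C ∧ ∀ ε : ℝ, 0 < ε → ∃ τ : ℝ, 0 < τ ∧ ∃ H0 : ℕ, ∀ H : ℕ, H0 ≤ H →
        ∀ v : ℤ → ℝ, (∀ i, v (i + H) = v i) →
        ∑ i ∈ Finset.range H, |v ((i : ℤ) + 1) - v i| ≤ τ * H →
        ∃ G : ℤ → ℝ, BL d (fun i => (G i : ℂ)) ∧ (∀ i, 0 ≤ G i) ∧
          (∀ i, Real.exp (-(v i)) * G i ≤ C) ∧
          ∑ i ∈ Finset.range H, |Real.exp (-(v i)) * G i - 1| ≤ ε * H)
    (d : ℝ) (hd : 0 < d) (hd' : d < 1 / 2) :
    ∃ C : ℝ, 1 ≤ C ∧ ∀ ε : ℝ, 0 < ε → ∃ τ : ℝ, 0 < τ ∧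
      ∀ (X : Type) [MeasurableSpace X] (μ : Measure X) [IsProbabilityMeasure μ]
        (T : Equiv.Perm X), MeasurePreserving T μ μ → MeasurePreserving T.symm μ μ →
      ∀ V : X → ℝ, Measurable V → (∃ K, ∀ x, |V x| ≤ K) → ∫ x, |V (T x) - V x| ∂μ ≤ τ →
      ∃ G : X → ℝ, Measurable G ∧ (∃ K, ∀ x, |G x| ≤ K) ∧
        (∀ x, BL d (fun n : ℤ => (G ((T ^ n) x) : ℂ))) ∧
        (∀ x, |Real.exp (-(V x)) * G x| ≤ C) ∧
        ∫ x, |Real.exp (-(V x)) * G x - 1| ∂μ ≤ ε := by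
  obtain ⟨C0, hC0, hF⟩ := hFKL (d / 2) (by linarith) (by linarith)
  refine ⟨C0 + 1, by linarith, fun ε hε => ?_⟩
  obtain ⟨τ0, hτ0, H0, hF0⟩ := hF (ε / 8) (by positivity)
  obtain ⟨a, ha, -, ha1, ha0⟩ := hker (r := d / 2) (r' := 3 * d / 4) (by linarith) (by linarith)
    (by linarith)
  refine ⟨τ0 * ε / 8, by positivity, ?_⟩
  intro X _ μ _ T hT hT' V hV hK hVT
  obtain ⟨K, hK⟩ := hK
  refine transfer_one hC0 hε hτ0 rfl hF0 ha ha1 ?_ μ T hT hT' V hV (K := K)
    hK hVT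
  intro φ hφ
  refine havg (Complex.summable_ofReal.2 ha) ?_ hφ
  intro θ h1 h2
  exact ha0 θ (by linarith) h2

end Pool.Agent.Helper57.BI
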