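import Pool.Agent.Helper65.BI.FKL
import Pool.Agent.Helper16.BI.Kernel
import Pool.Agent.Helper81.BI.BLAvg
import Pool.Agent.Helper68.BI.TransferAux

/-! BI-16 (by helper68): the transference lemma. -/

namespace Pool.Agent.Helper57.BI

open MeasureTheory Complex Filter Topology

/-- BI-16 -/
theorem transfer (d : ℝ) (hd : 0 < d) (hd' : d < 1 / 2) :
    ∃ C : ℝ, 1 ≤ C ∧ ∀ ε : ℝ, 0 < ε → ∃ τ : ℝ, 0 < τ ∧
      ∀ (X : Type) [MeasurableSpace X] (μ : Measure X) [IsProbabilityMeasure μ]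
        (T : Equiv.Perm X), MeasurePreserving T μ μ → MeasurePreserving T.symm μ μ →
      ∀ V : X → ℝ, Measurable V → (∃ K, ∀ x, |V x| ≤ K) → ∫ x, |V (T x) - V x| ∂μ ≤ τ →
      ∃ G : X → ℝ, Measurable G ∧ (∃ K, ∀ x, |G x| ≤ K) ∧
        (∀ x, BL d (fun n : ℤ => (G ((T ^ n) x) : ℂ))) ∧
        (∀ x, |Real.exp (-(V x)) * G x| ≤ C) ∧
        ∫ x, |Real.exp (-(V x)) * G x - 1| ∂μ ≤ ε :=
  transfer_aux (fun h0 h1 h2 => exists_kernel h0 h1 h2) (fun ha hs _ hφ => BL_avg ha hs hφ)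
    (fun d hd hd' => FKL d hd hd') d hd hd'

end Pool.Agent.Helper57.BI
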